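import Mathlib
import Pool.Agent.Results.MP_9ec3f0_nt.ConicAndHigherDegree
import Pool.Agent.Y854.GM.Win

/-! # The truncated counting function of arbitrary divisors of `ℙⁿ`, for ALL rational points with
height in windows

Let `D` be any reduced divisor of `ℙⁿ` over `ℚ` (singular components and arbitrary intersections are
allowed), with components `F_j = 0` irreducible over `ℚ` of degree `k_j`, and let `m_j = k_j` for
hyperplanes and quadrics, and `m_j = 1` for each other component (or more, if `F_j` takes few values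
twice). Let `v ≥ 1` be a sequence with exponent of convergence `0`, for instance `v k = b ^ k`. The
points of `ℙⁿ` over `ℚ` are given by their integral coordinates `x`, `H(x) = max |x_i|`; the number
of the `x` with `H(x) ^ (n + 1) ≤ X` is of the order `X`.

1. Let `θ < ∑ m_j`, and let `S` be a finite set of primes. There are `κ > 0` and a set of amplitudes
of Hausdorff dimension less than one, such that for all other `α > 0` and all large `k` ALL the
points with `|H(x) ^ (n + 1) - α v k| ≤ (v k) ^ κ` are off `D` and satisfy `N¹_S(D, x) ≥ θ log H(x)`.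

2. For almost every `α > 0` this holds for all `n`, all `D`, `S` and `θ < ∑ m_j`, with `κ > 0`
depending on them.

As `h_{K + D} = (∑ k_j - n - 1) h`, this is Vojta's inequality, with `ε = 0`, for all the rational points
with height in the windows, whenever the sum of `k_j - 1` over the components of degree at least three
is at most `n`; there is no exceptional subset. If this sum is `n + 1`, it is the inequality for every
`ε > 0`. -/

set_option autoImplicit false

open MvPolynomial Filter Topology MeasureTheory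

namespace Pool.Agent.Results.MP_9ec3f0_nt.ArbitraryDivisorWindows

open ConicAndHigherDegree (FewCoincidences truncatedCount)

/-- the exponent of convergence of the sequence `v` is at most `τ` -/
def ExpLe (v : ℕ → ℝ) (τ : ℝ) : Prop := ∀ t : ℝ, τ < t → Summable (fun n : ℕ => (v n) ^ (-t))

/-- the components of a reduced divisor over `ℚ` of degrees `k`, and the exponents `m` -/
def Divisor (n r : ℕ) (F : Fin r → MvPolynomial (Fin (n + 1)) ℤ) (k m : Fin r → ℕ) : Prop :=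
  (∀ j, (F j).IsHomogeneous (k j)) ∧ (∀ j, Irreducible (map (Int.castRingHom ℚ) (F j))) ∧
    (∀ i j, i ≠ j →
      ¬ Associated (map (Int.castRingHom ℚ) (F i)) (map (Int.castRingHom ℚ) (F j))) ∧
    ∀ j, m j ≤ 1 ∨ (m j ≤ k j ∧ k j ≤ 2) ∨ FewCoincidences (F j) (m j)

/-- the height of the point with the integral coordinates `x` -/
noncomputable def H {n : ℕ} (x : Fin (n + 1) → ℤ) : ℝ := ‖x‖

/-- for all large `l`, all the points with `|H(x) ^ (n + 1) - α v l| ≤ (v l) ^ κ` are off `D` and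
satisfy `N¹_S(D, x) ≥ θ log H(x)` -/
def Law {n r : ℕ} (v : ℕ → ℝ) (F : Fin r → MvPolynomial (Fin (n + 1)) ℤ) (S : Finset ℕ)
    (θ κ α : ℝ) : Prop :=
  ∃ l₀ : ℕ, ∀ l : ℕ, l₀ ≤ l → ∀ x : Fin (n + 1) → ℤ,
    |H x ^ (n + 1) - α * v l| ≤ (v l) ^ κ →
      (∀ j, eval x (F j) ≠ 0) ∧ θ * Real.log (H x) ≤ truncatedCount S F x

lemma H_le {n : ℕ} {x : Fin (n + 1) → ℤ} {B : ℕ} : H x ≤ B ↔ ∀ i, |x i| ≤ B := by
  unfold H
  rw [pi_norm_le_iff_of_nonneg (Nat.cast_nonneg B)]
  refine forall_congr' fun i => ?_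
  rw [Int.norm_eq_abs]
  exact_mod_cast Iff.rfl

lemma H_nat {n : ℕ} (x : Fin (n + 1) → ℤ) : ∃ N : ℕ, H x = N := by
  obtain ⟨i, -, hi⟩ := Finset.exists_mem_eq_sup (Finset.univ : Finset (Fin (n + 1)))
    Finset.univ_nonempty (fun i => (x i).natAbs)
  refine ⟨(x i).natAbs, ?_⟩
  have h1 : ∀ j, ‖x j‖ = (((x j).natAbs : ℕ) : ℝ) := by
    intro j
    rw [Int.norm_eq_abs, Nat.cast_natAbs, Int.cast_abs]
  unfold H
  refine le_antisymm ?_ ?_
  · rw [pi_norm_le_iff_of_nonneg (Nat.cast_nonneg _)]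
    intro j
    rw [h1]
    have h2 := Finset.le_sup (f := fun i => (x i).natAbs) (Finset.mem_univ j)
    rw [hi] at h2
    exact_mod_cast h2
  · rw [← h1]
    exact norm_le_pi_norm x i

lemma log_H_nonneg {n : ℕ} (x : Fin (n + 1) → ℤ) : 0 ≤ Real.log (H x) := by
  obtain ⟨N, hN⟩ := H_nat x
  rw [hN]
  exact Real.log_natCast_nonneg N

lemma truncated_nonneg {n r : ℕ} (S : Finset ℕ) (F : Fin r → MvPolynomial (Fin (n + 1)) ℤ)
    (x : Fin (n + 1) → ℤ) : 0 ≤ truncatedCount S F x :=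
  Finset.sum_nonneg fun p _ => Real.log_natCast_nonneg p

/-- the windows are eventually away from zero -/
lemma small_window {v : ℕ → ℝ} (hv : ∀ l, 1 ≤ v l) (hE : ExpLe v 0) {κ : ℝ} (hκ : κ < 1) {α : ℝ}
    (hα : 0 < α) : ∃ l₀ : ℕ, ∀ l : ℕ, l₀ ≤ l → (v l) ^ κ < α * v l := by
  have hlim : Tendsto v atTop atTop :=
    Pool.Agent.Y854.GM.tendsto_of_expLe (fun n => lt_of_lt_of_le one_pos (hv n)) le_rfl hE
  have h1 : Tendsto (fun n => (v n) ^ (1 - κ)) atTop atTop :=
    (tendsto_rpow_atTop (by linarith : 0 < 1 - κ)).comp hlim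
  obtain ⟨n0, hn0⟩ := (h1.eventually (eventually_gt_atTop (1 / α))).exists_forall_of_atTop
  refine ⟨n0, fun n hn => ?_⟩
  have hv0 : 0 < v n := lt_of_lt_of_le one_pos (hv n)
  have h2 := hn0 n hn
  rw [Real.rpow_sub hv0, Real.rpow_one, div_lt_div_iff₀ hα (Real.rpow_pos_of_pos hv0 _)] at h2
  linarith

theorem one {n r : ℕ} (F : Fin r → MvPolynomial (Fin (n + 1)) ℤ) (k m : Fin r → ℕ)
    (hD : Divisor n r F k m) (S : Finset ℕ) (θ : ℝ) (hθ : θ < ∑ j, (m j : ℝ)) :
    ∃ c : ℝ, 0 < c ∧ ∀ (v : ℕ → ℝ), (∀ l, 1 ≤ v l) → ExpLe v 0 → ∀ κ : ℝ, κ < 1 →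
      ∃ E : Set ℝ, dimH E ≤ ENNReal.ofReal (max 0 (1 - c) / (1 - κ)) ∧
        ∀ α : ℝ, 0 < α → α ∉ E → Law v F S θ κ α := by
  classical
  obtain ⟨c, hc, C, hC⟩ := ConicAndHigherDegree.result n r S F k m hD.1 hD.2.1 hD.2.2.1 hD.2.2.2 θ hθ
  have hn0 : (0 : ℝ) < (n : ℝ) + 1 := by positivity
  refine ⟨c / (n + 1), by positivity, fun v hv hE κ hκ => ?_⟩
  obtain ⟨E, hE1, hE2⟩ := Pool.Agent.Y854.GM.windows
    {x : Fin (n + 1) → ℤ | (∃ j, eval x (F j) = 0) ∨
      truncatedCount S F x < θ * Real.log (H x)}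
    (fun x => H x ^ (n + 1)) hv le_rfl hE (le_max_left 0 (1 - c / (n + 1))) hκ (by
      intro δ hδ
      refine ⟨|C|, fun X hX => ?_⟩
      have hX0 : 0 < X := by linarith
      set Y : ℝ := X ^ (1 / ((n : ℝ) + 1)) with hY
      have hY1 : 1 ≤ Y := Real.one_le_rpow hX (by positivity)
      set B : ℕ := ⌊Y⌋₊ with hB
      have hB1 : 1 ≤ B := Nat.le_floor (by exact_mod_cast hY1)
      have hBY : (B : ℝ) ≤ Y := Nat.floor_le (by linarith)
      have hB1' : (1 : ℝ) ≤ B := by exact_mod_cast hB1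
      have hsub : {x : Fin (n + 1) → ℤ | x ∈ {x : Fin (n + 1) → ℤ | (∃ j, eval x (F j) = 0) ∨
          truncatedCount S F x < θ * Real.log (H x)} ∧ H x ^ (n + 1) ≤ X} ⊆
          {x : Fin (n + 1) → ℤ | (∀ i, |x i| ≤ B) ∧
            ((∃ j, eval x (F j) = 0) ∨ truncatedCount S F x < θ * Real.log B)} := by
        rintro x ⟨hx, hxX⟩
        have hH0 : 0 ≤ H x := norm_nonneg x
        have hHY : H x ≤ Y := by
          have h4 : X = Y ^ (n + 1) := by
            rw [hY, ← Real.rpow_natCast, ← Real.rpow_mul hX0.le]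
            push_cast
            rw [one_div, inv_mul_cancel₀ hn0.ne', Real.rpow_one]
          rw [h4] at hxX
          exact (pow_le_pow_iff_left₀ hH0 (by linarith) (by omega)).1 hxX
        have hHB : H x ≤ B := by
          obtain ⟨N, hN⟩ := H_nat x
          rw [hN] at hHY ⊢
          exact_mod_cast Nat.le_floor hHY
        refine ⟨H_le.1 hHB, ?_⟩
        rcases hx with hx | hx
        · exact Or.inl hx
        · right
          rcases le_or_gt 0 θ with hθ0 | hθ0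
          · refine lt_of_lt_of_le hx (mul_le_mul_of_nonneg_left ?_ hθ0)
            rcases hH0.eq_or_lt with h0 | h0
            · rw [← h0, Real.log_zero]
              exact Real.log_nonneg hB1'
            · exact Real.log_le_log h0 hHB
          · have h1 := truncated_nonneg S F x
            have h2 := log_H_nonneg x
            nlinarith
      have hbox : {x : Fin (n + 1) → ℤ | ∀ i, |x i| ≤ B}.Finite := by
        have h1 : {x : Fin (n + 1) → ℤ | ∀ i, |x i| ≤ B} ⊆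
            Set.Icc (fun _ => -(B : ℤ)) (fun _ => (B : ℤ)) := by
          intro x hx
          exact ⟨fun i => (abs_le.1 (hx i)).1, fun i => (abs_le.1 (hx i)).2⟩
        exact (Set.finite_Icc _ _).subset h1
      have hfin : {x : Fin (n + 1) → ℤ | (∀ i, |x i| ≤ B) ∧
            ((∃ j, eval x (F j) = 0) ∨ truncatedCount S F x < θ * Real.log B)}.Finite :=
        hbox.subset fun x hx => hx.1
      refine ⟨hfin.subset hsub, ?_⟩
      have hle : (B : ℝ) ^ ((n : ℝ) + 1 - c) ≤ X ^ (max 0 (1 - c / (n + 1)) + δ) := by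
        have h0 : 0 ≤ max 0 ((n : ℝ) + 1 - c) := le_max_left _ _
        calc (B : ℝ) ^ ((n : ℝ) + 1 - c) ≤ (B : ℝ) ^ (max 0 ((n : ℝ) + 1 - c)) :=
              Real.rpow_le_rpow_of_exponent_le hB1' (le_max_right _ _)
          _ ≤ Y ^ (max 0 ((n : ℝ) + 1 - c)) := Real.rpow_le_rpow (by linarith) hBY h0
          _ = X ^ (max 0 (1 - c / (n + 1))) := by
              rw [hY, ← Real.rpow_mul hX0.le, mul_max_of_nonneg _ _ (by positivity), mul_zero]
              congr 2
              field_simp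
          _ ≤ X ^ (max 0 (1 - c / (n + 1)) + δ) :=
              Real.rpow_le_rpow_of_exponent_le hX (by linarith)
      calc (({x : Fin (n + 1) → ℤ | x ∈ {x : Fin (n + 1) → ℤ | (∃ j, eval x (F j) = 0) ∨
          truncatedCount S F x < θ * Real.log (H x)} ∧ H x ^ (n + 1) ≤ X}.ncard : ℕ) : ℝ)
          ≤ (({x : Fin (n + 1) → ℤ | (∀ i, |x i| ≤ B) ∧
            ((∃ j, eval x (F j) = 0) ∨ truncatedCount S F x < θ * Real.log B)}.ncard : ℕ) : ℝ) := by
            exact_mod_cast Set.ncard_le_ncard hsub hfin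
        _ ≤ C * (B : ℝ) ^ ((n : ℝ) + 1 - c) := hC B hB1
        _ ≤ |C| * (B : ℝ) ^ ((n : ℝ) + 1 - c) :=
            mul_le_mul_of_nonneg_right (le_abs_self C) (by positivity)
        _ ≤ |C| * X ^ (max 0 (1 - c / (n + 1)) + δ) :=
            mul_le_mul_of_nonneg_left hle (abs_nonneg C))
  rw [add_zero] at hE1
  refine ⟨E, hE1, fun α hα hαE => ?_⟩
  obtain ⟨l₀, hl⟩ := hE2 α hα hαE
  refine ⟨l₀, fun l hl0 x hw => ?_⟩
  have hx : ¬ ((∃ j, eval x (F j) = 0) ∨ truncatedCount S F x < θ * Real.log (H x)) :=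
    fun h => absurd hw (not_le.2 (hl l hl0 x h))
  rw [not_or, not_lt] at hx
  exact ⟨fun j hj => hx.1 ⟨j, hj⟩, hx.2⟩

theorem result (v : ℕ → ℝ) (hv : ∀ l, 1 ≤ v l) (hE : ExpLe v 0) :
    -- 1. one divisor
    (∀ (n r : ℕ) (F : Fin r → MvPolynomial (Fin (n + 1)) ℤ) (k m : Fin r → ℕ),
      Divisor n r F k m → ∀ (S : Finset ℕ) (θ : ℝ), θ < ∑ j, (m j : ℝ) →
      ∃ c : ℝ, 0 < c ∧ ∀ κ : ℝ, κ < 1 →
        ∃ E : Set ℝ, dimH E ≤ ENNReal.ofReal (max 0 (1 - c) / (1 - κ)) ∧
          ∀ α : ℝ, 0 < α → α ∉ E → Law v F S θ κ α) ∧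
    -- 2. all divisors, for almost every amplitude
    (∀ᵐ α : ℝ, 0 < α → ∀ (n r : ℕ) (F : Fin r → MvPolynomial (Fin (n + 1)) ℤ) (k m : Fin r → ℕ),
      Divisor n r F k m → ∀ (S : Finset ℕ) (θ : ℝ), θ < ∑ j, (m j : ℝ) →
      ∃ κ : ℝ, 0 < κ ∧ Law v F S θ κ α) := by
  refine ⟨fun n r F k m hD S θ hθ => ?_, ?_⟩
  · obtain ⟨c, hc, h⟩ := one F k m hD S θ hθ
    exact ⟨c, hc, fun κ hκ => h v hv hE κ hκ⟩
  have h : ∀ e : (Σ p : ℕ × ℕ, (Fin p.2 → MvPolynomial (Fin (p.1 + 1)) ℤ) × (Fin p.2 → ℕ) ×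
      (Fin p.2 → ℕ) × Finset ℕ × ℚ), ∀ᵐ α : ℝ, 0 < α →
      Divisor e.1.1 e.1.2 e.2.1 e.2.2.1 e.2.2.2.1 → ((e.2.2.2.2.2 : ℚ) : ℝ) < ∑ j, (e.2.2.2.1 j : ℝ) →
      ∃ κ : ℝ, 0 < κ ∧ Law v e.2.1 e.2.2.2.2.1 (e.2.2.2.2.2 : ℚ) κ α := by
    rintro ⟨⟨n, r⟩, F, k, m, S, θ⟩
    by_cases hc : Divisor n r F k m ∧ ((θ : ℚ) : ℝ) < ∑ j, (m j : ℝ)
    · obtain ⟨c, hc0, h1⟩ := one F k m hc.1 S θ hc.2
      have hκ : min (c / 2) (1 / 2) < 1 := lt_of_le_of_lt (min_le_right _ _) (by norm_num)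
      have hκ0 : 0 < min (c / 2) (1 / 2) := lt_min (by linarith) (by norm_num)
      obtain ⟨E, hE1, hE2⟩ := h1 v hv hE (min (c / 2) (1 / 2)) hκ
      have hnull : volume E = 0 := by
        have hdim : dimH E < 1 := by
          refine lt_of_le_of_lt hE1 ?_
          rw [← ENNReal.ofReal_one]
          refine (ENNReal.ofReal_lt_ofReal_iff one_pos).2 ?_
          rw [div_lt_one (by linarith)]
          refine max_lt (by linarith) ?_
          have := min_le_left (c / 2) (1 / 2)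
          linarith
        have h1 : Measure.hausdorffMeasure (1 : ℝ) E = 0 := by
          have h2 : dimH E < ((1 : NNReal) : ENNReal) := by simpa using hdim
          have h3 := hausdorffMeasure_of_dimH_lt h2
          simpa using h3
        rwa [hausdorffMeasure_real] at h1
      have hae : ∀ᵐ α : ℝ, α ∉ E := by
        rw [ae_iff]
        simpa using hnull
      filter_upwards [hae] with α hαE hα _ _
      exact ⟨_, hκ0, hE2 α hα hαE⟩
    · filter_upwards with α _ h1 h2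
      exact absurd ⟨h1, h2⟩ hc
  haveI : ∀ n : ℕ, Countable (MvPolynomial (Fin (n + 1)) ℤ) := fun n => by
    have h := MvPolynomial.cardinalMk_le_max_lift (σ := Fin (n + 1)) (R := ℤ)
    rw [← Cardinal.mk_le_aleph0_iff]
    simpa using h
  filter_upwards [ae_all_iff.2 h] with α hα hα0 n r F k m hD S θ hθ
  obtain ⟨θ', hθ1, hθ2⟩ := exists_rat_btwn hθ
  obtain ⟨κ, hκ, l₀, hl⟩ := hα ⟨⟨n, r⟩, F, k, m, S, θ'⟩ hα0 hD hθ2
  refine ⟨κ, hκ, l₀, fun l hl0 x hw => ⟨(hl l hl0 x hw).1, le_trans ?_ (hl l hl0 x hw).2⟩⟩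
  exact mul_le_mul_of_nonneg_right hθ1.le (log_H_nonneg x)

end Pool.Agent.Results.MP_9ec3f0_nt.ArbitraryDivisorWindows
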