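import Mathlib
import Pool.Agent.Results.MP_9ec3f0_nt.HyperplaneExceptions
import Pool.Agent.V11001.KM.Family

/-! # Vojta's inequality with truncated counting function for ALL points with heights near the powers of almost every
real number

`K` runs through all number fields (in the algebraic closure of `ℚ`), `D` through the sums of `r`
hyperplanes over `K` in general position in `ℙ^n`, `S` through the finite sets of primes of `K`;
`H` is the height relative to `K`, so that the number of `K`-rational points with `H ^ (n + 1) ≤ X` is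
of the order `X`. Let `ν k` be real numbers with `ν k / log k → ∞`, for example `ν k = k` or `ν k = k !`, and `β > 0`.

1. Let `θ ≥ 0` and `κ < 1`. For all `z > 1` outside a set of Hausdorff dimension at most
`e / (1 - κ)`, `e = expo n r θ / (n + 1)` (less than `1` for `θ < r`), for all `K`, `D`, `S` and
`C`: for all but finitely many `k` all the points `P` off `D` with `|H ^ (n + 1) - β z ^ (ν k)| ≤ z ^ (κ ν k)` satisfy
`N¹_S(D, P) > θ h(P) + C`. There is no exceptional subset. For `θ = r - n - 1` this is Vojta's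
inequality, `h_{K + D} = (r - n - 1) h`, even with `ε = 0` and an arbitrary constant.

2. For almost every `z > 1` this holds for all `n`, `r`, `θ < r`, `κ < 1 - expo n r θ / (n + 1)`, and
all `K`, `D`, `S`, `C` at once. -/

set_option autoImplicit false

open NumberField Height Finset LinearAlgebra.Projectivization Filter Topology MeasureTheory
open scoped Classical

namespace Pool.Agent.Results.MP_9ec3f0_nt.HeightsNearPowers

open Pool.Agent.H57R3.VJ HyperplaneExceptions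

/-- For all number fields `K`, all sums `D` of `r` hyperplanes over `K` in general position in `ℙ^n`,
all finite sets `S` of primes and all `C`, for all but finitely many `k` all the points `P` off `D` with
`|H ^ (n + 1) - β z ^ (ν k)| ≤ z ^ (κ ν k)` satisfy `N¹_S(D, P) > θ h(P) + C`. -/
def Law (ν : ℕ → ℝ) (n r : ℕ) (θ κ β z : ℝ) : Prop :=
  ∀ (K : IntermediateField ℚ (AlgebraicClosure ℚ)) [NumberField K] (a : Fin r → Fin (n + 1) → K),
    (∀ I : Finset (Fin r), I.card = n + 1 → LinearIndependent K (fun i : I => a i)) →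
    ∀ (S : Finset (FinitePlace K)) (C : ℝ), ∃ k₀ : ℕ, ∀ k : ℕ, k₀ ≤ k →
      ∀ P : ℙ K (Fin (n + 1) → K), (∀ i, lin (a i) P.rep ≠ 0) →
        |P.mulHeight ^ (n + 1) - β * z ^ ν k| ≤ z ^ (κ * ν k) →
          θ * Real.log P.mulHeight + C < N1 S a P.rep

lemma countable_closure : Countable (AlgebraicClosure ℚ) := by
  have h := Algebraic.countable ℚ (AlgebraicClosure ℚ)
  have h2 : {x : AlgebraicClosure ℚ | IsAlgebraic ℚ x} = Set.univ :=
    Set.eq_univ_of_forall fun x => (AlgebraicClosure.isAlgebraic ℚ).isAlgebraic x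
  rw [h2] at h
  exact Set.countable_univ_iff.1 h

lemma countable_fields :
    Countable {K : IntermediateField ℚ (AlgebraicClosure ℚ) // NumberField K} := by
  haveI := countable_closure
  have hsurj : ∀ K : {K : IntermediateField ℚ (AlgebraicClosure ℚ) // NumberField K},
      ∃ x : AlgebraicClosure ℚ, IntermediateField.adjoin ℚ {x} = K.1 := by
    rintro ⟨K, hK⟩
    have h1 : @FiniteDimensional ℚ K _ _ (K.algebra').toModule := by
      have h := hK.to_finiteDimensional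
      convert h
    obtain ⟨y, hy⟩ := @Field.exists_primitive_element ℚ K _ _ K.algebra' h1 _
    refine ⟨(y : AlgebraicClosure ℚ), ?_⟩
    rw [← IntermediateField.lift_adjoin_simple, hy, IntermediateField.lift_top]
  choose f hf using hsurj
  refine Function.Injective.countable (f := f) fun K L h => Subtype.ext ?_
  rw [← hf K, ← hf L, h]

lemma countable_places (K : Type) [Field K] [NumberField K] : Countable (FinitePlace K) := by
  have h1 : (⋃ T : ℕ, {v : FinitePlace K | NN v ≤ T}).Countable :=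
    Set.countable_iUnion fun T => (finite_NN (K := K) T).countable
  have h2 : (⋃ T : ℕ, {v : FinitePlace K | NN v ≤ T}) = Set.univ :=
    Set.eq_univ_of_forall fun v => by
      obtain ⟨T, hT⟩ := exists_nat_ge (NN v)
      exact Set.mem_iUnion.2 ⟨T, hT⟩
  rw [h2] at h1
  exact Set.countable_univ_iff.1 h1

lemma expo_nonneg (n r : ℕ) (hn : 1 ≤ n) (hr : n + 1 ≤ r) {θ : ℝ} (hθ : 0 ≤ θ) :
    0 ≤ expo n r θ := by
  have hr2 : (n : ℝ) + 1 ≤ r := by exact_mod_cast hr
  have hn1 : (1 : ℝ) ≤ n := by exact_mod_cast hn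
  refine le_min ?_ ?_
  · refine mul_nonneg hθ (sub_nonneg.2 (div_le_one_of_le₀ ?_ (Nat.cast_nonneg _)))
    exact_mod_cast Nat.choose_le_choose _ (by omega)
  · refine mul_nonneg (by positivity) (sub_nonneg.2 ?_)
    rw [div_le_one (by nlinarith)]
    have h1 : (n : ℝ) * (r - θ) ≤ n * r := by nlinarith
    have h2 : (n : ℝ) * r ≤ r * (r - 1) := by nlinarith
    linarith

/-- one field, one divisor -/
lemma one (K : Type) [Field K] [NumberField K] (n r : ℕ) (hn : 1 ≤ n) (hr : n + 1 ≤ r)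
    (a : Fin r → Fin (n + 1) → K)
    (ha : ∀ I : Finset (Fin r), I.card = n + 1 → LinearIndependent K (fun i : I => a i))
    (S : Finset (FinitePlace K)) (θ C : ℝ) (hθ : 0 ≤ θ) {ν : ℕ → ℝ} {κ β : ℝ}
    (hν : Tendsto (fun n : ℕ => ν n / Real.log n) atTop atTop) (hβ : 0 < β) (hκ : κ < 1) :
    ∃ E : Set ℝ, dimH E ≤ ENNReal.ofReal (expo n r θ / (n + 1) / (1 - κ)) ∧
      ∀ z : ℝ, 1 < z → z ∉ E → ∃ k₀ : ℕ, ∀ k : ℕ, k₀ ≤ k →
      ∀ P : ℙ K (Fin (n + 1) → K), (∀ i, lin (a i) P.rep ≠ 0) →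
        |P.mulHeight ^ (n + 1) - β * z ^ ν k| ≤ z ^ (κ * ν k) →
          θ * Real.log P.mulHeight + C < N1 S a P.rep := by
  have hn0 : (0 : ℝ) < (n : ℝ) + 1 := by positivity
  obtain ⟨E, hE1, hE2⟩ := Pool.Agent.V11001.KM.powers
    {P : ℙ K (Fin (n + 1) → K) | (∀ i, lin (a i) P.rep ≠ 0) ∧
      N1 S a P.rep ≤ θ * Real.log P.mulHeight + C}
    (fun P => P.mulHeight ^ (n + 1)) hν hβ
    (div_nonneg (expo_nonneg n r hn hr hθ) hn0.le) hκ (by
      intro ε hε
      obtain ⟨M, hM⟩ := (HyperplaneExceptions.result K n r hn hr a ha S θ C (((n : ℝ) + 1) * ε) hθ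
        (by positivity)).2
      refine ⟨M, fun X hX => ?_⟩
      have hX0 : 0 < X := by linarith
      have hB1 : 1 ≤ X ^ (1 / ((n : ℝ) + 1)) := Real.one_le_rpow hX (by positivity)
      obtain ⟨h1, h2⟩ := hM _ hB1
      have heq : {P : ℙ K (Fin (n + 1) → K) | P ∈ {P : ℙ K (Fin (n + 1) → K) |
          (∀ i, lin (a i) P.rep ≠ 0) ∧ N1 S a P.rep ≤ θ * Real.log P.mulHeight + C} ∧
          P.mulHeight ^ (n + 1) ≤ X} = Exc S a θ C (X ^ (1 / ((n : ℝ) + 1))) := by
        ext P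
        have hH : 0 ≤ P.mulHeight := (Projectivization.mulHeight_pos P).le
        have h3 : P.mulHeight ^ (n + 1) ≤ X ↔ P.mulHeight ≤ X ^ (1 / ((n : ℝ) + 1)) := by
          have h4 : X = (X ^ (1 / ((n : ℝ) + 1))) ^ (n + 1) := by
            rw [← Real.rpow_natCast, ← Real.rpow_mul hX0.le]
            push_cast
            rw [one_div, inv_mul_cancel₀ hn0.ne', Real.rpow_one]
          constructor
          · intro h
            rw [h4] at h
            exact (pow_le_pow_iff_left₀ hH (by positivity) (by omega)).1 h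
          · intro h
            rw [h4]
            exact pow_le_pow_left₀ hH h _
        simp only [Set.mem_ofPred_eq, Exc]
        rw [h3]
        tauto
      rw [heq]
      refine ⟨h1, h2.trans (le_of_eq ?_)⟩
      rw [← Real.rpow_mul hX0.le]
      congr 2
      field_simp)
  refine ⟨E, hE1, fun z hz hzE => ?_⟩
  obtain ⟨k₀, hk⟩ := hE2 z hz hzE
  refine ⟨k₀, fun k hk0 P hP hw => ?_⟩
  by_contra hcon
  exact absurd hw (not_le.2 (hk k hk0 P ⟨hP, not_lt.1 hcon⟩))

theorem law (n r : ℕ) (hn : 1 ≤ n) (hr : n + 1 ≤ r) (θ : ℝ) (hθ : 0 ≤ θ) (ν : ℕ → ℝ) (κ β : ℝ)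
    (hν : Tendsto (fun n : ℕ => ν n / Real.log n) atTop atTop) (hβ : 0 < β) (hκ : κ < 1) :
    ∃ E : Set ℝ, dimH E ≤ ENNReal.ofReal (expo n r θ / (n + 1) / (1 - κ)) ∧
      ∀ z : ℝ, 1 < z → z ∉ E → Law ν n r θ κ β z := by
  haveI := countable_closure
  haveI := countable_fields
  have h : ∀ e : (Σ K : {K : IntermediateField ℚ (AlgebraicClosure ℚ) // NumberField K},
      (Fin r → Fin (n + 1) → K.1) × (haveI := K.2; Finset (FinitePlace K.1)) × ℕ),
      ∃ E : Set ℝ, dimH E ≤ ENNReal.ofReal (expo n r θ / (n + 1) / (1 - κ)) ∧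
      ∀ z : ℝ, 1 < z → z ∉ E → haveI := e.1.2;
      (∀ I : Finset (Fin r), I.card = n + 1 → LinearIndependent e.1.1 (fun i : I => e.2.1 i)) →
      ∃ k₀ : ℕ, ∀ k : ℕ, k₀ ≤ k →
      ∀ P : ℙ e.1.1 (Fin (n + 1) → e.1.1), (∀ i, lin (e.2.1 i) P.rep ≠ 0) →
        |P.mulHeight ^ (n + 1) - β * z ^ ν k| ≤ z ^ (κ * ν k) →
          θ * Real.log P.mulHeight + (e.2.2.2 : ℝ) < N1 e.2.2.1 e.2.1 P.rep := by
    rintro ⟨⟨K, hK⟩, a, S, j⟩
    haveI := hK
    by_cases ha : ∀ I : Finset (Fin r), I.card = n + 1 → LinearIndependent K (fun i : I => a i)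
    · obtain ⟨E, h1, h2⟩ := one K n r hn hr a ha S θ j hθ hν hβ hκ
      exact ⟨E, h1, fun z hz hzE _ => h2 z hz hzE⟩
    · exact ⟨∅, by simp, fun z _ _ h => absurd h ha⟩
  haveI : ∀ K : {K : IntermediateField ℚ (AlgebraicClosure ℚ) // NumberField K},
      Countable ((Fin r → Fin (n + 1) → K.1) × (haveI := K.2; Finset (FinitePlace K.1)) × ℕ) := by
    rintro ⟨K, hK⟩
    haveI := hK
    haveI := countable_places K
    infer_instance
  choose E hE1 hE2 using h
  refine ⟨⋃ e, E e, ?_, fun z hz hzE K hK a ha S C => ?_⟩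
  · rw [dimH_iUnion]
    exact iSup_le hE1
  · obtain ⟨j, hj⟩ := exists_nat_ge C
    obtain ⟨k₀, hk⟩ := hE2 ⟨⟨K, hK⟩, a, S, j⟩ z hz (fun h => hzE (Set.mem_iUnion.2 ⟨_, h⟩)) ha
    refine ⟨k₀, fun k hk0 P hP hw => lt_of_le_of_lt ?_ (hk k hk0 P hP hw)⟩
    simp only
    linarith

lemma law_mono {ν : ℕ → ℝ} (hν : Tendsto (fun n : ℕ => ν n / Real.log n) atTop atTop) {n r : ℕ}
    {θ θ' κ κ' β z : ℝ} (hz : 1 < z) (hθ : θ ≤ θ') (hκ : κ ≤ κ') (h : Law ν n r θ' κ' β z) : Law ν n r θ κ β z := by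
  intro K hK a ha S C
  obtain ⟨k₀, hk⟩ := h K a ha S C
  obtain ⟨k₁, hk₁⟩ := ((Pool.Agent.V11001.KM.tendsto_lam hν).eventually_ge_atTop 0).exists_forall_of_atTop
  refine ⟨max k₀ k₁, fun k hk0 P hP hw => lt_of_le_of_lt ?_
    (hk k ((le_max_left _ _).trans hk0) P hP (hw.trans (Real.rpow_le_rpow_of_exponent_le hz.le
      (mul_le_mul_of_nonneg_right hκ (hk₁ k ((le_max_right _ _).trans hk0))))))⟩
  have h1 : 0 ≤ Real.log P.mulHeight := Real.log_nonneg (Projectivization.one_le_mulHeight P)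
  nlinarith

/-- **Theorem.** Let `ν k / log k → ∞` and `β > 0`. (1) The set of the `z > 1` without the law has Hausdorff dimension
at most `expo n r θ / (n + 1) / (1 - κ)`. (2) For almost every `z > 1` the law holds for all `n`, `r`, `θ < r` and
`κ < 1 - expo n r θ / (n + 1)`. -/
theorem result (ν : ℕ → ℝ) (hν : Tendsto (fun n : ℕ => ν n / Real.log n) atTop atTop) (β : ℝ) (hβ : 0 < β) :
    -- 1. the dimension of the exceptional set
    (∀ n r : ℕ, 1 ≤ n → n + 1 ≤ r → ∀ θ κ : ℝ, 0 ≤ θ → κ < 1 →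
      (θ < r → expo n r θ / (n + 1) < 1) ∧
      ∃ E : Set ℝ, dimH E ≤ ENNReal.ofReal (expo n r θ / (n + 1) / (1 - κ)) ∧
        ∀ z : ℝ, 1 < z → z ∉ E → Law ν n r θ κ β z) ∧
    -- 2. everything at once, for almost every base
    (∀ᵐ z : ℝ, 1 < z → ∀ n r : ℕ, 1 ≤ n → n + 1 ≤ r → ∀ θ κ : ℝ, 0 ≤ θ → θ < r →
      expo n r θ / (n + 1) + κ < 1 → Law ν n r θ κ β z) := by
  have hpart1 : ∀ n r : ℕ, 1 ≤ n → n + 1 ≤ r → ∀ θ κ : ℝ, 0 ≤ θ → κ < 1 →
      (θ < r → expo n r θ / (n + 1) < 1) ∧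
      ∃ E : Set ℝ, dimH E ≤ ENNReal.ofReal (expo n r θ / (n + 1) / (1 - κ)) ∧
        ∀ z : ℝ, 1 < z → z ∉ E → Law ν n r θ κ β z := by
    intro n r hn hr θ κ hθ hκ
    refine ⟨fun hθr => ?_, law n r hn hr θ hθ ν κ β hν hβ hκ⟩
    rw [div_lt_one (by positivity)]
    refine lt_of_le_of_lt (min_le_right _ _) ?_
    have hr2 : (n : ℝ) + 1 ≤ r := by exact_mod_cast hr
    have hn1 : (1 : ℝ) ≤ n := by exact_mod_cast hn
    have h1 : 0 < (n : ℝ) * ((r : ℝ) - θ) / ((r : ℝ) * ((r : ℝ) - 1)) := by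
      apply div_pos
      · apply mul_pos <;> linarith
      · apply mul_pos <;> linarith
    nlinarith
  refine ⟨hpart1, ?_⟩
  have h : ∀ e : (ℕ × ℕ) × (ℚ × ℚ), ∀ᵐ z : ℝ, 1 < z → 1 ≤ e.1.1 → e.1.1 + 1 ≤ e.1.2 →
      (0 : ℝ) ≤ e.2.1 → (e.2.1 : ℝ) < e.1.2 → expo e.1.1 e.1.2 e.2.1 / (e.1.1 + 1) + e.2.2 < 1 →
        Law ν e.1.1 e.1.2 e.2.1 e.2.2 β z := by
    rintro ⟨⟨n, r⟩, ⟨θ, κ⟩⟩
    by_cases hc : 1 ≤ n ∧ n + 1 ≤ r ∧ (0 : ℝ) ≤ θ ∧ (θ : ℝ) < r ∧
        expo n r θ / (n + 1) + κ < 1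
    · obtain ⟨hn, hr, hθ, hθr, hlt⟩ := hc
      have he := div_nonneg (expo_nonneg n r hn hr hθ) (by positivity : (0 : ℝ) ≤ (n : ℝ) + 1)
      have hκ1 : (κ : ℝ) < 1 := by linarith
      obtain ⟨E, hE1, hE2⟩ := (hpart1 n r hn hr θ κ hθ hκ1).2
      have hnull : volume E = 0 := by
        have hdim : dimH E < 1 := by
          refine lt_of_le_of_lt hE1 ?_
          rw [← ENNReal.ofReal_one]
          refine (ENNReal.ofReal_lt_ofReal_iff one_pos).2 ?_
          rw [div_lt_one (by linarith)]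
          linarith
        have h1 : Measure.hausdorffMeasure (1 : ℝ) E = 0 := by
          have h2 : dimH E < ((1 : NNReal) : ENNReal) := by simpa using hdim
          have h3 := hausdorffMeasure_of_dimH_lt h2
          simpa using h3
        rwa [hausdorffMeasure_real] at h1
      have hae : ∀ᵐ z : ℝ, z ∉ E := by
        rw [ae_iff]
        simpa using hnull
      filter_upwards [hae] with z hzE hz _ _ _ _ _
      exact hE2 z hz hzE
    · filter_upwards with z _ h1 h2 h3 h4 h5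
      exact absurd ⟨h1, h2, h3, h4, h5⟩ hc
  filter_upwards [ae_all_iff.2 h] with z hz hz0 n r hn hr θ κ hθ hθr hlt
  -- rational approximations
  have hcont : Continuous (expo n r) := by
    unfold expo
    fun_prop
  have hev : ∀ᶠ θ' : ℝ in 𝓝 θ, expo n r θ' / (n + 1) + κ < 1 := by
    have h1 : Continuous fun θ' : ℝ => expo n r θ' / ((n : ℝ) + 1) + κ := by fun_prop
    exact h1.continuousAt.eventually (gt_mem_nhds hlt)
  have hev2 : ∀ᶠ θ' : ℝ in 𝓝 θ, θ' < (r : ℝ) := gt_mem_nhds hθr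
  obtain ⟨δ, hδ, hball⟩ := Metric.eventually_nhds_iff.1 (hev.and hev2)
  obtain ⟨θ', hθ1, hθ2⟩ := exists_rat_btwn (show θ < θ + δ by linarith)
  obtain ⟨h3, h4⟩ := hball (y := (θ' : ℝ)) (by
    rw [Real.dist_eq, abs_of_pos (by linarith)]
    linarith)
  obtain ⟨κ', hκ1, hκ2⟩ := exists_rat_btwn (show κ < 1 - expo n r θ' / (n + 1) by linarith)
  have h5 := hz ⟨⟨n, r⟩, ⟨θ', κ'⟩⟩ hz0 hn hr (by
    simp only
    linarith) h4 (by
    simp only
    linarith)
  exact law_mono hν hz0 hθ1.le hκ1.le h5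

end Pool.Agent.Results.MP_9ec3f0_nt.HeightsNearPowers
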