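import Mathlib
import Pool.Agent.Results.MP_9ec3f0_nt.HyperplaneExceptions
import Pool.Agent.Results.MP_9ec3f0_nt.HyperplaneArrangements
import Pool.Agent.H107.MetricPi
import Pool.Agent.H107.NFCount

/-!
# Vojta's inequality with truncated counting function for hyperplanes, near almost every point

`K` is a number field with an embedding in `ℝ`. For almost all `z` in `ℝ ^ n` only finitely many points of `ℙ ^ n (K)`
with `|x - z| ≤ H(x) ^ (-σ)` violate the inequality `N¹_S(D, x) > θ h(x) + C` (general position, `θ < r`,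
`σ > expo n r θ / n`) resp. `N¹_S(D, x) > h_{K_X + D}(x) + (n + 1 - κ) h(x) + C` (arbitrary arrangements, `κ ≤ 1 / 2`,
`σ > (n + 1 - κ) / n`).
-/

set_option autoImplicit false

open NumberField Height Finset LinearAlgebra.Projectivization IsDedekindDomain MeasureTheory

namespace Pool.Agent.Results.MP_9ec3f0_nt.NearAlmostEveryPoint

/-- the point `P` of `ℙ ^ n (K)` is near `z` to the precision `H(P) ^ (-σ)`, for the embedding `ι` of `K` -/
def Near {K : Type} [Field K] [NumberField K] {n : ℕ} (ι : K →+* ℝ) (z : Fin n → ℝ) (σ : ℝ)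
    (P : ℙ K (Fin (n + 1) → K)) : Prop :=
  ∀ i : Fin n, |ι (P.rep i.succ) / ι (P.rep 0) - z i| ≤ P.mulHeight ^ (-σ)

/-- `r` hyperplanes in general position -/
def GeneralPosition {K : Type} [Field K] {n r : ℕ} (a : Fin r → Fin (n + 1) → K) : Prop :=
  ∀ I : Finset (Fin r), I.card = n + 1 → LinearIndependent K (fun i : I => a i)

/-- the points off the hyperplanes, which are in general position, with `N¹_S(D, P) ≤ θ h(P) + C` -/
def Bad {K : Type} [Field K] [NumberField K] {n r : ℕ} (S : Finset (FinitePlace K))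
    (a : Fin r → Fin (n + 1) → K) (θ C : ℝ) : Set (ℙ K (Fin (n + 1) → K)) :=
  {P | (∀ i, Pool.Agent.H57R3.VJ.lin (a i) P.rep ≠ 0) ∧
    Pool.Agent.H57R3.VJ.N1 S a P.rep ≤ θ * Real.log P.mulHeight + C}

/-- the points off the arrangement with `N¹_S(D, P) ≤ h_{K_X + D}(P) + (n + 1 - κ) h(P) + C` -/
def BadArr {K : Type} [Field K] [NumberField K] {n r : ℕ} (S : Finset (HeightOneSpectrum (𝓞 K)))
    (a : Fin r → Fin (n + 1) → K) (κ C : ℝ) : Set (ℙ K (Fin (n + 1) → K)) :=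
  {P | (∀ i, HyperplaneArrangements.lin (a i) P.rep ≠ 0) ∧
    HyperplaneArrangements.N1 S a P.rep ≤
      HyperplaneArrangements.hW a P.rep - κ * Real.log P.mulHeight + C}

section

variable {K : Type} [Field K] [NumberField K] {n r : ℕ}

lemma one_le (P : ℙ K (Fin (n + 1) → K)) : 1 ≤ P.mulHeight := by
  rw [← P.mk_rep, Projectivization.mulHeight_mk]
  exact one_le_mulHeight _

lemma countable_places : Countable (FinitePlace K) := by
  have h := Pool.Agent.H107.NF.countable_hos K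
  exact (FinitePlace.equivHeightOneSpectrum (K := K)).injective.countable

lemma expo_nonneg {n r : ℕ} (hn : 1 ≤ n) (hr : n + 1 ≤ r) {θ : ℝ} (hθ : 0 ≤ θ) :
    0 ≤ HyperplaneExceptions.expo n r θ := by
  unfold HyperplaneExceptions.expo
  have hn' : (1 : ℝ) ≤ n := by exact_mod_cast hn
  have hr' : (n : ℝ) + 1 ≤ r := by exact_mod_cast hr
  have h1 : (0 : ℝ) < (r.choose (n + 1) : ℝ) := by exact_mod_cast Nat.choose_pos hr
  refine le_min (mul_nonneg hθ (sub_nonneg.2 ?_)) (mul_nonneg (by positivity) (sub_nonneg.2 ?_))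
  · rw [div_le_one h1]
    exact_mod_cast Nat.choose_le_choose _ (by omega)
  · rw [div_le_one (by nlinarith)]
    nlinarith

lemma count_gp (hn : 1 ≤ n) (hr : n + 1 ≤ r) {a : Fin r → Fin (n + 1) → K} (ha : GeneralPosition a)
    (S : Finset (FinitePlace K)) {θ : ℝ} (hθ : 0 ≤ θ) (C : ℝ) :
    ∀ ε : ℝ, 0 < ε → ∃ M : ℝ, ∀ X : ℝ, 1 ≤ X → {P | P ∈ Bad S a θ C ∧ P.mulHeight ≤ X}.Finite ∧
      ({P | P ∈ Bad S a θ C ∧ P.mulHeight ≤ X}.ncard : ℝ) ≤ M * X ^ (HyperplaneExceptions.expo n r θ + ε) := by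
  intro ε hε
  obtain ⟨-, M, hM⟩ := HyperplaneExceptions.result K n r hn hr a ha S θ C ε hθ hε
  refine ⟨M, fun X hX => ?_⟩
  have h1 := hM X hX
  have h2 : {P | P ∈ Bad S a θ C ∧ P.mulHeight ≤ X} = HyperplaneExceptions.Exc S a θ C X := by
    ext P
    unfold Bad HyperplaneExceptions.Exc
    simp only [Set.mem_ofPred_eq]
    tauto
  rw [h2]
  exact h1

lemma count_arr (hn : 1 ≤ n) (hr : 1 ≤ r) {a : Fin r → Fin (n + 1) → K} (ha : ∀ i, a i ≠ 0)
    (S : Finset (HeightOneSpectrum (𝓞 K))) {κ : ℝ} (hκ : 0 ≤ κ) (hκ1 : κ ≤ 1 / 2) (C : ℝ) :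
    ∀ ε : ℝ, 0 < ε → ∃ M : ℝ, ∀ X : ℝ, 1 ≤ X → {P | P ∈ BadArr S a κ C ∧ P.mulHeight ≤ X}.Finite ∧
      ({P | P ∈ BadArr S a κ C ∧ P.mulHeight ≤ X}.ncard : ℝ) ≤ M * X ^ ((n : ℝ) + 1 - κ + ε) := by
  intro ε hε
  obtain ⟨h0, -⟩ := HyperplaneArrangements.result K n r hn hr a ha S κ hκ hκ1
  obtain ⟨M, hM⟩ := h0 C ε hε
  refine ⟨M, fun X hX => ?_⟩
  have h1 := hM X hX
  have h2 : {P | P ∈ BadArr S a κ C ∧ P.mulHeight ≤ X} = HyperplaneArrangements.Exc S a κ C X := by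
    ext P
    unfold BadArr HyperplaneArrangements.Exc
    simp only [Set.mem_ofPred_eq]
    tauto
  rw [h2]
  exact h1

end

/-- **Theorem.** Let `K` be a number field with an embedding `ι` in `ℝ`, `n ≥ 1`. (1) For almost all `z` in `ℝ ^ n`: for
all `r ≥ n + 1`, all `r` hyperplanes over `K` in general position (sum `D`), all finite sets `S` of finite places, all
`θ ≥ 0`, `C` and `σ > expo n r θ / n` only finitely many points off `D` with `|P - z| ≤ H(P) ^ (-σ)` violate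
`N¹_S(D, P) > θ h(P) + C`; and `expo n r θ < n + 1` for `θ < r`. (2) For almost all `z` in `ℝ ^ n`: for all `r ≥ 1`, all
arrangements of `r` hyperplanes over `K`, all `S`, `κ ∈ [0, 1/2]`, `C` and `σ > (n + 1 - κ) / n` only finitely many
points off the arrangement with `|P - z| ≤ H(P) ^ (-σ)` violate `N¹_S(D, P) > h_{K_X + D}(P) + (n + 1 - κ) h(P) + C`. -/
theorem result (K : Type) [Field K] [NumberField K] (ι : K →+* ℝ) (n : ℕ) (hn : 1 ≤ n) :
    (∀ᵐ z : Fin n → ℝ, ∀ (r : ℕ) (a : Fin r → Fin (n + 1) → K) (S : Finset (FinitePlace K)), n + 1 ≤ r →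
      GeneralPosition a → ∀ θ C σ : ℝ, 0 ≤ θ → HyperplaneExceptions.expo n r θ / n < σ →
        {P | P ∈ Bad S a θ C ∧ Near ι z σ P}.Finite) ∧
    (∀ (r : ℕ) (θ : ℝ), n + 1 ≤ r → θ < r → HyperplaneExceptions.expo n r θ < n + 1) ∧
    (∀ᵐ z : Fin n → ℝ, ∀ (r : ℕ) (a : Fin r → Fin (n + 1) → K) (S : Finset (HeightOneSpectrum (𝓞 K))), 1 ≤ r →
      (∀ i, a i ≠ 0) → ∀ κ C σ : ℝ, 0 ≤ κ → κ ≤ 1 / 2 → ((n : ℝ) + 1 - κ) / n < σ →
        {P | P ∈ BadArr S a κ C ∧ Near ι z σ P}.Finite) := by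
  have hne : Nonempty (Fin n) := ⟨⟨0, by omega⟩⟩
  have hnR : (0 : ℝ) < n := by exact_mod_cast hn
  have hcK : Countable K := Pool.Agent.H107.NF.countable_nf K
  have hcF : Countable (FinitePlace K) := countable_places
  have hcH : Countable (HeightOneSpectrum (𝓞 K)) := Pool.Agent.H107.NF.countable_hos K
  refine ⟨?_, ?_, ?_⟩
  · have hq : ∀ p : ℕ × ℚ, ∀ᵐ z : Fin n → ℝ, n + 1 ≤ p.1 → 0 ≤ (p.2 : ℝ) → ∀ σ : ℝ,
        HyperplaneExceptions.expo n p.1 p.2 / n < σ →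
          ∀ j : {a : Fin p.1 → Fin (n + 1) → K // GeneralPosition a} × Finset (FinitePlace K) × ℤ,
            {P | P ∈ Bad j.2.1 j.1.1 (p.2 : ℝ) (j.2.2 : ℝ) ∧ Near ι z σ P}.Finite := by
      intro p
      by_cases h : n + 1 ≤ p.1 ∧ 0 ≤ (p.2 : ℝ)
      · have h1 := Pool.Agent.H107.ME.ae_family_pi (ι := Fin n)
          (fun (P : ℙ K (Fin (n + 1) → K)) (i : Fin n) => ι (P.rep i.succ) / ι (P.rep 0))
          (fun P => P.mulHeight) one_le (s := HyperplaneExceptions.expo n p.1 p.2) (expo_nonneg hn h.1 h.2)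
          (J := {a : Fin p.1 → Fin (n + 1) → K // GeneralPosition a} × Finset (FinitePlace K) × ℤ)
          (fun j => Bad j.2.1 j.1.1 (p.2 : ℝ) (j.2.2 : ℝ))
          (fun j ε hε => count_gp hn h.1 j.1.2 j.2.1 h.2 _ ε hε)
        rw [Fintype.card_fin] at h1
        filter_upwards [h1] with z hz _ _
        exact hz
      · exact Filter.Eventually.of_forall fun z h1 h2 => absurd ⟨h1, h2⟩ h
    rw [← ae_all_iff] at hq
    filter_upwards [hq] with z hz r a S hr ha θ C σ hθ hσ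
    -- a rational `θ' ≥ θ`
    have hcont : Continuous (fun θ : ℝ => HyperplaneExceptions.expo n r θ / n) := by
      unfold HyperplaneExceptions.expo
      fun_prop
    have hopen : IsOpen {θ' : ℝ | HyperplaneExceptions.expo n r θ' / n < σ} := isOpen_lt hcont continuous_const
    obtain ⟨η, hη, hball⟩ := Metric.isOpen_iff.1 hopen θ hσ
    obtain ⟨θ', h1, h2⟩ := exists_rat_btwn (show θ < θ + η by linarith)
    have h3 : HyperplaneExceptions.expo n r θ' / n < σ := by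
      apply hball
      rw [Metric.mem_ball, Real.dist_eq, abs_lt]
      constructor <;> linarith
    obtain ⟨k, hk⟩ : ∃ k : ℤ, C ≤ (k : ℝ) := ⟨⌈C⌉, Int.le_ceil C⟩
    refine (hz (r, θ') hr (by simp only; linarith) σ h3 (⟨a, ha⟩, S, k)).subset ?_
    rintro P ⟨⟨g1, g2⟩, g3⟩
    refine ⟨⟨g1, g2.trans ?_⟩, g3⟩
    have h4 : 0 ≤ Real.log P.mulHeight := Real.log_nonneg (one_le P)
    have h5 : θ * Real.log P.mulHeight ≤ θ' * Real.log P.mulHeight := mul_le_mul_of_nonneg_right h1.le h4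
    show θ * Real.log P.mulHeight + C ≤ (θ' : ℝ) * Real.log P.mulHeight + (k : ℝ)
    linarith
  · intro r θ hr hθ
    refine lt_of_le_of_lt (min_le_right _ _) ?_
    have hr' : (n : ℝ) + 1 ≤ r := by exact_mod_cast hr
    have h1 : 0 < (n : ℝ) * ((r : ℝ) - θ) / ((r : ℝ) * ((r : ℝ) - 1)) := by
      apply div_pos
      · apply mul_pos <;> linarith
      · apply mul_pos <;> linarith
    nlinarith
  · have hq : ∀ p : ℕ × ℚ, ∀ᵐ z : Fin n → ℝ, 1 ≤ p.1 → 0 ≤ (p.2 : ℝ) ∧ (p.2 : ℝ) ≤ 1 / 2 → ∀ σ : ℝ,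
        ((n : ℝ) + 1 - p.2) / n < σ →
          ∀ j : {a : Fin p.1 → Fin (n + 1) → K // ∀ i, a i ≠ 0} × Finset (HeightOneSpectrum (𝓞 K)) × ℤ,
            {P | P ∈ BadArr j.2.1 j.1.1 (p.2 : ℝ) (j.2.2 : ℝ) ∧ Near ι z σ P}.Finite := by
      intro p
      by_cases h : 1 ≤ p.1 ∧ 0 ≤ (p.2 : ℝ) ∧ (p.2 : ℝ) ≤ 1 / 2
      · have h1 := Pool.Agent.H107.ME.ae_family_pi (ι := Fin n)
          (fun (P : ℙ K (Fin (n + 1) → K)) (i : Fin n) => ι (P.rep i.succ) / ι (P.rep 0))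
          (fun P => P.mulHeight) one_le (s := (n : ℝ) + 1 - p.2) (by linarith [h.2.2])
          (J := {a : Fin p.1 → Fin (n + 1) → K // ∀ i, a i ≠ 0} × Finset (HeightOneSpectrum (𝓞 K)) × ℤ)
          (fun j => BadArr j.2.1 j.1.1 (p.2 : ℝ) (j.2.2 : ℝ))
          (fun j ε hε => count_arr hn h.1 j.1.2 j.2.1 h.2.1 h.2.2 _ ε hε)
        rw [Fintype.card_fin] at h1
        filter_upwards [h1] with z hz _ _
        exact hz
      · exact Filter.Eventually.of_forall fun z h1 h2 => absurd ⟨h1, h2⟩ h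
    rw [← ae_all_iff] at hq
    filter_upwards [hq] with z hz r a S hr ha κ C σ hκ hκ1 hσ
    obtain ⟨k, hk⟩ : ∃ k : ℤ, C ≤ (k : ℝ) := ⟨⌈C⌉, Int.le_ceil C⟩
    -- a rational `κ' ≤ κ`
    obtain ⟨κ', h1, h2, h3⟩ : ∃ κ' : ℚ, 0 ≤ (κ' : ℝ) ∧ (κ' : ℝ) ≤ κ ∧ ((n : ℝ) + 1 - κ') / n < σ := by
      rcases hκ.eq_or_lt with h | h
      · refine ⟨0, by simp, by simp [← h], ?_⟩
        rw [← h] at hσ
        simpa using hσ
      · have h4 : (n : ℝ) + 1 - σ * n < κ := by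
          rw [div_lt_iff₀ hnR] at hσ
          linarith
        obtain ⟨κ', h5, h6⟩ := exists_rat_btwn (max_lt h h4)
        refine ⟨κ', (lt_of_le_of_lt (le_max_left _ _) h5).le, h6.le, ?_⟩
        rw [div_lt_iff₀ hnR]
        linarith [lt_of_le_of_lt (le_max_right _ _) h5]
    refine (hz (r, κ') hr ⟨h1, by simp only; linarith⟩ σ h3 (⟨a, ha⟩, S, k)).subset ?_
    rintro P ⟨⟨g1, g2⟩, g3⟩
    refine ⟨⟨g1, g2.trans ?_⟩, g3⟩
    have h4 : 0 ≤ Real.log P.mulHeight := Real.log_nonneg (one_le P)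
    have h5 : (κ' : ℝ) * Real.log P.mulHeight ≤ κ * Real.log P.mulHeight := mul_le_mul_of_nonneg_right h2 h4
    show HyperplaneArrangements.hW a P.rep - κ * Real.log P.mulHeight + C ≤
      HyperplaneArrangements.hW a P.rep - (κ' : ℝ) * Real.log P.mulHeight + (k : ℝ)
    linarith

end Pool.Agent.Results.MP_9ec3f0_nt.NearAlmostEveryPoint
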